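import Pool.Agent.Q145.HC.Stm
import Pool.Agent.H373R2.T7.MinorMu
import Pool.Agent.H373R2.T7.SupLiou

/-!
# Project HC, job MINL: minor arcs for the Liouville function
-/

set_option autoImplicit false

namespace Pool.Agent.Q145.HC

open Finset Filter Complex
open Pool.Agent.H807R2.Dav (ee norm_ee)
open Pool.Agent.Q145.SZ
open Pool.Agent.H373R2.T7 (liR muC liou_split block_mu muC_norm)

namespace MINLx

lemma pow10 {X Q : ℕ} (hQ2 : (Q : ℝ) ≤ (X : ℝ) ^ (1 / 10 : ℝ)) : (Q : ℝ) ^ 10 ≤ X := by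
  calc (Q : ℝ) ^ 10 ≤ ((X : ℝ) ^ (1 / 10 : ℝ)) ^ 10 := by gcongr
    _ = (X : ℝ) := by
      rw [← Real.rpow_natCast, ← Real.rpow_mul (by positivity)]
      norm_num

lemma blk (X Q a N N' : ℕ) (α : ℝ) (hL : 20000 ≤ Real.log X) (hQ1 : Real.log X ^ 60 ≤ Q)
    (hQ2 : (Q : ℝ) ≤ (X : ℝ) ^ (1 / 10 : ℝ)) (ha : 1 ≤ a) (haQ : (a : ℝ) ^ 4 ≤ Q)
    (hN1 : (X : ℝ) ≤ 2 * (a : ℝ) ^ 2 * N) (hN2 : (N : ℝ) * (a : ℝ) ^ 2 ≤ 6 * X) (hNN' : N ≤ N')
    (hN' : N' ≤ 2 * N) (hα : α ∉ Maj Q 1 X) :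
    ‖∑ m ∈ Ioc N N', muC m * ee ((m : ℝ) * ((a : ℝ) ^ 2 * α))‖ ≤
      Real.log X ^ 6 * N / √(√(Q : ℝ)) := by
  have hQ10 := pow10 hQ2
  obtain ⟨L, hLd⟩ : ∃ L, L = Real.log X := ⟨_, rfl⟩
  rw [← hLd] at hL hQ1 ⊢
  have hL0 : 0 < L := by linarith
  have hQL : L ≤ Q := by
    refine le_trans ?_ hQ1
    calc L = L ^ 1 := (pow_one L).symm
      _ ≤ L ^ 60 := pow_le_pow_right₀ (by linarith) (by norm_num)
  have hQ0 : (0 : ℝ) < Q := by linarith
  obtain ⟨w, hw⟩ : ∃ w, w = √(√(Q : ℝ)) := ⟨_, rfl⟩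
  rw [← hw]
  have hw0 : 0 < w := by rw [hw]; positivity
  have hw2 : w ^ 2 = √(Q : ℝ) := by rw [hw, Real.sq_sqrt (Real.sqrt_nonneg _)]
  have hw4 : w ^ 4 = Q := by
    have : w ^ 4 = (w ^ 2) ^ 2 := by ring
    rw [this, hw2, Real.sq_sqrt hQ0.le]
  have hwL : L ≤ w := by
    have h1 : L ^ 4 ≤ w ^ 4 := by
      rw [hw4]
      exact le_trans (pow_le_pow_right₀ (by linarith) (by norm_num)) hQ1
    exact le_of_pow_le_pow_left₀ (by norm_num) hw0.le h1
  have hwb : 20000 ≤ w := hL.trans hwL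
  have hX40 : w ^ 40 ≤ X := by
    have : w ^ 40 = (w ^ 4) ^ 10 := by ring
    rw [this, hw4]
    exact hQ10
  have hX0 : (0 : ℝ) < X := lt_of_lt_of_le (by positivity) hX40
  have ha0 : (1 : ℝ) ≤ a := by exact_mod_cast ha
  have haw : (a : ℝ) ^ 2 ≤ w ^ 2 := by
    have h1 : ((a : ℝ) ^ 2) ^ 2 ≤ (w ^ 2) ^ 2 := by
      have e1 : ((a : ℝ) ^ 2) ^ 2 = (a : ℝ) ^ 4 := by ring
      have e2 : (w ^ 2) ^ 2 = w ^ 4 := by ring
      rw [e1, e2, hw4]
      exact haQ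
    exact le_of_pow_le_pow_left₀ (by norm_num) (by positivity) h1
  -- size of `N`
  have hXN : (X : ℝ) ≤ 2 * w ^ 2 * N := by
    refine hN1.trans ?_
    gcongr
  have hN38 : w ^ 38 ≤ 2 * N := by
    have h1 : w ^ 2 * w ^ 38 ≤ w ^ 2 * (2 * N) := by
      calc w ^ 2 * w ^ 38 = w ^ 40 := by ring
        _ ≤ (X : ℝ) := hX40
        _ ≤ 2 * w ^ 2 * N := hXN
        _ = w ^ 2 * (2 * N) := by ring
    exact le_of_mul_le_mul_left h1 (by positivity)
  have hN6 : 4 * w ^ 6 ≤ N := by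
    have h1 : w ^ 38 = w ^ 32 * w ^ 6 := by ring
    have h2 : (8 : ℝ) ≤ w ^ 32 := by
      calc (8 : ℝ) ≤ 20000 := by norm_num
        _ ≤ w := hwb
        _ = w ^ 1 := (pow_one w).symm
        _ ≤ w ^ 32 := pow_le_pow_right₀ (by linarith) (by norm_num)
    have h3 : 8 * w ^ 6 ≤ w ^ 38 := by
      rw [h1]
      exact mul_le_mul_of_nonneg_right h2 (by positivity)
    linarith
  have hN0 : (0 : ℝ) < N := lt_of_lt_of_le (by positivity) hN6
  have hNn : 1 ≤ N := by exact_mod_cast hN0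
  have hNX : (N : ℝ) ≤ 6 * X := by
    refine le_trans ?_ hN2
    have : (1 : ℝ) ≤ (a : ℝ) ^ 2 := one_le_pow₀ ha0
    exact le_mul_of_one_le_right hN0.le this
  -- Dirichlet
  have hQX : (Q : ℝ) ≤ X := by
    refine le_trans ?_ hQ10
    calc (Q : ℝ) = (Q : ℝ) ^ 1 := (pow_one _).symm
      _ ≤ (Q : ℝ) ^ 10 := pow_le_pow_right₀ (by linarith) (by norm_num)
  obtain ⟨n₀, hn₀⟩ : ∃ n₀, n₀ = ⌊(X : ℝ) / Q⌋₊ := ⟨_, rfl⟩
  have hn1 : 0 < n₀ := by
    rw [hn₀]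
    exact Nat.floor_pos.2 ((one_le_div hQ0).2 hQX)
  have hnle : (n₀ : ℝ) ≤ X / Q := by rw [hn₀]; exact Nat.floor_le (by positivity)
  have hnlt : (X : ℝ) / Q < n₀ + 1 := by rw [hn₀]; exact Nat.lt_floor_add_one _
  obtain ⟨r, hr1, hr2⟩ := Real.exists_rat_abs_sub_le_and_den_le ((a : ℝ) ^ 2 * α) hn1
  have hden : (0 : ℝ) < r.den := by exact_mod_cast r.den_pos
  have hden1 : (1 : ℝ) ≤ r.den := by exact_mod_cast r.den_pos
  have hrden : (r.den : ℝ) ≤ n₀ := by exact_mod_cast hr2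
  have hrcast : ((r : ℚ) : ℝ) = (r.num : ℝ) / (r.den : ℕ) := by
    exact_mod_cast (Rat.cast_def (K := ℝ) r)
  have hn0p : (0 : ℝ) < (n₀ : ℝ) + 1 := by positivity
  have hqQ : (Q : ℝ) < r.den * (a : ℝ) ^ 2 := by
    by_contra hcon
    push Not at hcon
    apply hα
    refine ⟨r.den * a ^ 2, Nat.mul_pos r.den_pos (by positivity), by exact_mod_cast hcon, r.num, ?_⟩
    have e1 : ((r.den * a ^ 2 : ℕ) : ℝ) * ((1 : ℕ) : ℝ) * α - ((r.num : ℤ) : ℝ) =
        (r.den : ℝ) * ((a : ℝ) ^ 2 * α - r) := by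
      rw [hrcast]
      push_cast
      field_simp
    have e2 : |(r.den : ℝ) * ((a : ℝ) ^ 2 * α - r)| = (r.den : ℝ) * |(a : ℝ) ^ 2 * α - r| := by
      rw [abs_mul, abs_of_nonneg (by positivity)]
    calc |((r.den * a ^ 2 : ℕ) : ℝ) * ((1 : ℕ) : ℝ) * α - ((r.num : ℤ) : ℝ)| =
        (r.den : ℝ) * |(a : ℝ) ^ 2 * α - r| := by rw [e1, e2]
      _ ≤ (r.den : ℝ) * (1 / ((n₀ + 1) * r.den)) := by gcongr
      _ = 1 / ((n₀ : ℝ) + 1) := by field_simp
      _ ≤ 1 / ((X : ℝ) / Q) := by gcongr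
      _ = ((1 : ℕ) : ℝ) * Q / X := by push_cast; field_simp
  have hwq : w ^ 2 < r.den := by
    have h1 : w ^ 4 < r.den * w ^ 2 := by
      rw [hw4]
      exact lt_of_lt_of_le hqQ (by gcongr)
    have h2 : w ^ 2 * w ^ 2 < r.den * w ^ 2 := by
      calc w ^ 2 * w ^ 2 = w ^ 4 := by ring
        _ < _ := h1
    exact lt_of_mul_lt_mul_right h2 (by positivity)
  have hcop : IsCoprime r.num (r.den : ℤ) := by
    rw [Int.isCoprime_iff_gcd_eq_one]
    exact r.reduced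
  have hα2 : |(a : ℝ) ^ 2 * α - (r.num : ℝ) / (r.den : ℕ)| ≤ 1 / ((r.den : ℕ) : ℝ) ^ 2 := by
    rw [← hrcast]
    refine hr1.trans ?_
    rw [sq]
    gcongr
    linarith
  -- the parameter `U`
  obtain ⟨U, hU⟩ : ∃ U, U = ⌈w ^ 2⌉₊ := ⟨_, rfl⟩
  have hU1 : w ^ 2 ≤ U := by rw [hU]; exact Nat.le_ceil _
  have hw21 : 1 ≤ w ^ 2 := one_le_pow₀ (by linarith)
  have hU2 : (U : ℝ) ≤ 2 * w ^ 2 := by
    have h1 : (U : ℝ) < w ^ 2 + 1 := by rw [hU]; exact Nat.ceil_lt_add_one (by positivity)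
    linarith
  have hU0 : (0 : ℝ) < U := lt_of_lt_of_le (by positivity) hU1
  have hUn : 1 ≤ U := by exact_mod_cast hU0
  have hUU : (U : ℝ) * U ≤ 4 * w ^ 4 := by
    calc (U : ℝ) * U ≤ (2 * w ^ 2) * (2 * w ^ 2) := by gcongr
      _ = 4 * w ^ 4 := by ring
  have hUU6 : (U : ℝ) * U * w ^ 2 ≤ N := by
    calc (U : ℝ) * U * w ^ 2 ≤ (4 * w ^ 4) * w ^ 2 := by gcongr
      _ = 4 * w ^ 6 := by ring
      _ ≤ N := hN6
  have hUUN : (U : ℝ) * U ≤ N := by
    refine le_trans ?_ hUU6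
    have : 0 ≤ (U : ℝ) * U := by positivity
    exact le_mul_of_one_le_right this hw21
  have key := block_mu r.den_pos hcop hα2 N N' U hNn hNN' hN' hUn (by exact_mod_cast hUUN)
  have hconv : ∑ m ∈ Ioc N N', muC m * ee ((m : ℝ) * ((a : ℝ) ^ 2 * α)) =
      ∑ n ∈ Ioc N N', (((ArithmeticFunction.moebius n : ℤ) : ℝ) : ℂ) * ee ((n : ℝ) * ((a : ℝ) ^ 2 * α)) := by
    refine sum_congr rfl fun m _ => ?_
    unfold muC
    push_cast
    rfl
  rw [hconv]
  refine key.trans ?_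
  -- logarithms
  obtain ⟨q, hq⟩ : ∃ q : ℝ, q = r.den := ⟨_, rfl⟩
  have hq0 : 0 < q := by rw [hq]; exact hden
  have hq1 : 1 ≤ q := by rw [hq]; exact hden1
  have hqXQ : q ≤ X / Q := by rw [hq]; exact hrden.trans hnle
  have hqX : q ≤ X := hqXQ.trans (div_le_self hX0.le (by linarith))
  rw [← hq] at hwq ⊢
  have hlq : 1 + Real.log q ≤ 2 * L := by
    have : Real.log q ≤ L := by rw [hLd]; exact Real.log_le_log hq0 hqX
    linarith
  have hlq0 : 0 ≤ Real.log q := Real.log_nonneg hq1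
  have hlN : 1 + Real.log (4 * N) ≤ 2 * L := by
    have h1 : Real.log (4 * N) ≤ Real.log (24 * X) := Real.log_le_log (by positivity) (by linarith)
    rw [Real.log_mul (by norm_num) hX0.ne', ← hLd] at h1
    have h2 : Real.log 24 ≤ 23 := by
      have := Real.log_le_sub_one_of_pos (show (0 : ℝ) < 24 by norm_num)
      linarith
    linarith
  have hlN0 : 0 ≤ 1 + Real.log (4 * N) := by
    have h1 : (1 : ℝ) ≤ 4 * N := by
      have : (1 : ℝ) ≤ N := by exact_mod_cast hNn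
      linarith
    have := Real.log_nonneg h1
    linarith
  have hUUc : ((U * U : ℕ) : ℝ) = (U : ℝ) * U := by push_cast; ring
  have hlogUU : Real.log ((U * U : ℕ) : ℝ) ≤ 3 + L / 10 := by
    rw [hUUc]
    have h1 : Real.log ((U : ℝ) * U) ≤ Real.log (4 * w ^ 4) := Real.log_le_log (by positivity) hUU
    rw [hw4, Real.log_mul (by norm_num) hQ0.ne'] at h1
    have h2 : Real.log 4 ≤ 3 := by
      have := Real.log_le_sub_one_of_pos (show (0 : ℝ) < 4 by norm_num)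
      linarith
    have h3 : 10 * Real.log Q ≤ L := by
      have h4 : Real.log ((Q : ℝ) ^ 10) ≤ Real.log X := Real.log_le_log (by positivity) hQ10
      rw [Real.log_pow, ← hLd] at h4
      push_cast at h4
      exact h4
    linarith
  have hUUn1 : (1 : ℝ) ≤ ((U * U : ℕ) : ℝ) := by
    exact_mod_cast Nat.mul_pos hUn hUn
  have hlogUU0 : 0 ≤ Real.log ((U * U : ℕ) : ℝ) := Real.log_nonneg hUUn1
  have hl2 : 1 + Real.log ((U * U : ℕ) : ℝ) ≤ 2 * L := by linarith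
  have hl3 : (Nat.log 2 (U * U) + 1 : ℝ) ≤ 2 * L := by
    have h1 := Real.natLog_le_logb (U * U) 2
    have h2 : Real.logb ((2 : ℕ) : ℝ) ((U * U : ℕ) : ℝ) ≤ 2 * Real.log ((U * U : ℕ) : ℝ) := by
      unfold Real.logb
      rw [div_le_iff₀ (Real.log_pos (by norm_num))]
      have h3 : (1 : ℝ) ≤ 2 * Real.log ((2 : ℕ) : ℝ) := by
        have := Real.log_two_gt_d9
        push_cast
        linarith
      calc Real.log ((U * U : ℕ) : ℝ) = Real.log ((U * U : ℕ) : ℝ) * 1 := (mul_one _).symm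
        _ ≤ Real.log ((U * U : ℕ) : ℝ) * (2 * Real.log ((2 : ℕ) : ℝ)) :=
            mul_le_mul_of_nonneg_left h3 hlogUU0
        _ = 2 * Real.log ((U * U : ℕ) : ℝ) * Real.log ((2 : ℕ) : ℝ) := by ring
    linarith
  -- the two sums
  have t1 : (N : ℝ) / q ≤ N / w ^ 2 := by gcongr
  have t2 : (N : ℝ) / U ≤ N / w ^ 2 := by gcongr
  have t3 : q ≤ 2 * (N / w ^ 2) := by
    refine hqXQ.trans ?_
    rw [← hw4, ← mul_div_assoc, div_le_div_iff₀ (by positivity) (by positivity)]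
    calc (X : ℝ) * w ^ 2 ≤ (2 * w ^ 2 * N) * w ^ 2 := by gcongr
      _ = 2 * N * w ^ 4 := by ring
  have t4 : ((U * U : ℕ) : ℝ) ≤ N / w ^ 2 := by
    rw [hUUc, le_div_iff₀ (by positivity)]
    exact hUU6
  have hS1 : 672 * (1 + Real.log q) * (N * ((N : ℝ) / q + N / U + q)) ≤ (74 * L * N / w) ^ 2 := by
    calc 672 * (1 + Real.log q) * (N * ((N : ℝ) / q + N / U + q))
        ≤ 672 * (2 * L) * (N * ((N / w ^ 2) + (N / w ^ 2) + 2 * (N / w ^ 2))) := by gcongr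
      _ = 5376 * L * (N ^ 2 / w ^ 2) := by field_simp; ring
      _ ≤ 5476 * L ^ 2 * (N ^ 2 / w ^ 2) := by
          apply mul_le_mul_of_nonneg_right _ (by positivity)
          have h9 : 1 * L ≤ L * L := mul_le_mul_of_nonneg_right (by linarith) hL0.le
          have h10 : L ^ 2 = L * L := sq L
          rw [h10]
          linarith
      _ = (74 * L * N / w) ^ 2 := by field_simp; ring
  have hsq1 : √(672 * (1 + Real.log q) * (N * ((N : ℝ) / q + N / U + q))) ≤ 74 * L * N / w :=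
    (Real.sqrt_le_sqrt hS1).trans (by rw [Real.sqrt_sq (by positivity)])
  have hS2 : 6 * (N : ℝ) * (1 + Real.log ((U * U : ℕ) : ℝ)) ^ 4 ≤ 96 * N * L ^ 4 := by
    calc 6 * (N : ℝ) * (1 + Real.log ((U * U : ℕ) : ℝ)) ^ 4 ≤ 6 * (N : ℝ) * (2 * L) ^ 4 := by gcongr
      _ = 96 * N * L ^ 4 := by ring
  have hS3 : 600 * (Nat.log 2 (U * U) + 1 : ℝ) * ((N : ℝ) / q + ((U * U : ℕ) : ℝ) + q) * (1 + Real.log q) ≤
      9600 * L ^ 2 * (N / w ^ 2) := by
    calc 600 * (Nat.log 2 (U * U) + 1 : ℝ) * ((N : ℝ) / q + ((U * U : ℕ) : ℝ) + q) * (1 + Real.log q)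
        ≤ 600 * (2 * L) * ((N / w ^ 2) + (N / w ^ 2) + 2 * (N / w ^ 2)) * (2 * L) := by gcongr
      _ = 9600 * L ^ 2 * (N / w ^ 2) := by ring
  have hsq2 : √(6 * (N : ℝ) * (1 + Real.log ((U * U : ℕ) : ℝ)) ^ 4) *
      √(600 * (Nat.log 2 (U * U) + 1 : ℝ) * ((N : ℝ) / q + ((U * U : ℕ) : ℝ) + q) * (1 + Real.log q)) ≤
      960 * L ^ 3 * N / w := by
    calc _ ≤ √(96 * N * L ^ 4) * √(9600 * L ^ 2 * (N / w ^ 2)) :=
          mul_le_mul (Real.sqrt_le_sqrt hS2) (Real.sqrt_le_sqrt hS3) (Real.sqrt_nonneg _) (Real.sqrt_nonneg _)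
      _ = √((960 * L ^ 3 * N / w) ^ 2) := by
          rw [← Real.sqrt_mul (by positivity)]
          congr 1
          field_simp
          ring
      _ = 960 * L ^ 3 * N / w := by rw [Real.sqrt_sq (by positivity)]
  have hfin : 8 * (1 + Real.log (4 * N)) ^ 4 * √(672 * (1 + Real.log q) * (N * ((N : ℝ) / q + N / U + q))) +
      √(6 * (N : ℝ) * (1 + Real.log ((U * U : ℕ) : ℝ)) ^ 4) *
      √(600 * (Nat.log 2 (U * U) + 1 : ℝ) * ((N : ℝ) / q + ((U * U : ℕ) : ℝ) + q) * (1 + Real.log q)) ≤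
      8 * (2 * L) ^ 4 * (74 * L * N / w) + 960 * L ^ 3 * N / w := by
    gcongr
  refine hfin.trans ?_
  have e1 : 8 * (2 * L) ^ 4 * (74 * L * N / w) + 960 * L ^ 3 * N / w =
      (9472 * L ^ 5 + 960 * L ^ 3) * N / w := by ring
  rw [e1]
  have h5 : 9472 * L ^ 5 + 960 * L ^ 3 ≤ L ^ 6 := by
    have h6 : L ^ 3 ≤ L ^ 5 := pow_le_pow_right₀ (by linarith) (by norm_num)
    have h7 : L ^ 6 = L * L ^ 5 := by ring
    have h8 : 0 ≤ L ^ 5 := by positivity
    have h9 : 20000 * L ^ 5 ≤ L * L ^ 5 := mul_le_mul_of_nonneg_right hL h8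
    rw [h7]
    linarith
  gcongr

lemma lm_liR (n : ℕ) : ((lm n : ℝ) : ℂ) = liR n := by
  unfold lm liR
  push_cast
  rfl

/-- the inner sums -/
noncomputable def Idd (n n' : ℕ) (α : ℝ) (d : ℕ) : ℂ :=
  ∑ m ∈ Ioc (n / d ^ 2) (n' / d ^ 2), muC m * ee ((m : ℝ) * ((d : ℝ) ^ 2 * α))

lemma split (n n' : ℕ) (h : n ≤ n') (α : ℝ) :
    ∑ u ∈ Ioc n n', ((lm u : ℝ) : ℂ) * ee (u * α) = ∑ d ∈ Icc 1 n', Idd n n' α d := by
  have hsub : ∀ (f : ℕ → ℂ) (m m' : ℕ), m ≤ m' → ∑ u ∈ Ioc m m', f u = ∑ u ∈ Icc 1 m', f u - ∑ u ∈ Icc 1 m, f u := by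
    intro f m m' hm
    rw [eq_sub_iff_add_eq]
    have h1 : ∀ k : ℕ, Icc 1 k = Ioc 0 k := fun k => by ext x; simp [mem_Icc, mem_Ioc]; omega
    rw [h1, h1, add_comm]
    exact Finset.sum_Ioc_consecutive f (Nat.zero_le _) hm
  have h1 : ∑ u ∈ Ioc n n', ((lm u : ℝ) : ℂ) * ee (u * α) = ∑ u ∈ Ioc n n', liR u * ee ((u : ℝ) * α) :=
    sum_congr rfl fun u _ => by rw [lm_liR]
  rw [h1, hsub _ n n' h, liou_split, liou_split]
  have h2 : ∑ d ∈ Icc 1 n, ∑ m ∈ Icc 1 (n / d ^ 2), muC m * ee ((m : ℝ) * ((d : ℝ) ^ 2 * α)) =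
      ∑ d ∈ Icc 1 n', ∑ m ∈ Icc 1 (n / d ^ 2), muC m * ee ((m : ℝ) * ((d : ℝ) ^ 2 * α)) := by
    refine sum_subset (Icc_subset_Icc_right h) fun d hd hd' => ?_
    rw [mem_Icc] at hd hd'
    have hd3 : n < d := by omega
    have h4 : n / d ^ 2 = 0 := by
      apply Nat.div_eq_of_lt
      calc n < d := hd3
        _ = d ^ 1 := (pow_one d).symm
        _ ≤ d ^ 2 := Nat.pow_le_pow_right (by omega) (by norm_num)
    rw [h4]
    simp
  rw [h2, ← sum_sub_distrib]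
  refine sum_congr rfl fun d _ => ?_
  unfold Idd
  rw [hsub _ (n / d ^ 2) (n' / d ^ 2) (Nat.div_le_div_right h)]

end MINLx

open MINLx in
theorem t_MINL : S_MINL := by
  obtain ⟨x1, hx1⟩ : ∃ x1 : ℕ, ∀ X : ℕ, x1 ≤ X → 20000 ≤ Real.log X := by
    have := (Real.tendsto_log_atTop.comp tendsto_natCast_atTop_atTop).eventually (eventually_ge_atTop (20000 : ℝ))
    obtain ⟨x1, hx1⟩ := Filter.eventually_atTop.1 this
    exact ⟨x1, fun X hX => hx1 X hX⟩
  refine ⟨x1, fun Q X n n' α hX hQ1 hQ2 hn hnn hn' hα => ?_⟩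
  have hL := hx1 X hX
  have hQ10 := pow10 hQ2
  obtain ⟨L, hLd⟩ : ∃ L, L = Real.log X := ⟨_, rfl⟩
  have hblk := fun a N N' => blk X Q a N N' α hL hQ1 hQ2
  rw [← hLd] at hL hQ1 ⊢
  have hL0 : 0 < L := by linarith
  have hQL : L ≤ Q := by
    refine le_trans ?_ hQ1
    calc L = L ^ 1 := (pow_one L).symm
      _ ≤ L ^ 60 := pow_le_pow_right₀ (by linarith) (by norm_num)
  have hQ0 : (0 : ℝ) < Q := by linarith
  have hrp : (Q : ℝ) ^ (1 / 4 : ℝ) = √(√(Q : ℝ)) := by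
    rw [Real.sqrt_eq_rpow, Real.sqrt_eq_rpow, ← Real.rpow_mul hQ0.le]
    norm_num
  rw [hrp]
  obtain ⟨w, hw⟩ : ∃ w, w = √(√(Q : ℝ)) := ⟨_, rfl⟩
  rw [← hw]
  simp only [← hw, ← hLd] at hblk
  have hw0 : 0 < w := by rw [hw]; positivity
  have hw2 : w ^ 2 = √(Q : ℝ) := by rw [hw, Real.sq_sqrt (Real.sqrt_nonneg _)]
  have hw4 : w ^ 4 = Q := by
    have : w ^ 4 = (w ^ 2) ^ 2 := by ring
    rw [this, hw2, Real.sq_sqrt hQ0.le]
  have hwL : L ≤ w := by
    have h1 : L ^ 4 ≤ w ^ 4 := by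
      rw [hw4]
      exact le_trans (pow_le_pow_right₀ (by linarith) (by norm_num)) hQ1
    exact le_of_pow_le_pow_left₀ (by norm_num) hw0.le h1
  have hwb : 20000 ≤ w := hL.trans hwL
  have hX40 : w ^ 40 ≤ X := by
    have : w ^ 40 = (w ^ 4) ^ 10 := by ring
    rw [this, hw4]
    exact hQ10
  have hX0 : (0 : ℝ) < X := lt_of_lt_of_le (by positivity) hX40
  have hn'3 : (n' : ℝ) ≤ 3 * X := by exact_mod_cast hn'
  have hnX : (X : ℝ) ≤ n := by exact_mod_cast hn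
  rw [split n n' hnn α]
  refine (norm_sum_le _ _).trans ?_
  have hterm : ∀ d ∈ Icc 1 n', ‖Idd n n' α d‖ ≤ 9 * L ^ 6 * X / w * ((d : ℝ))⁻¹ := by
    intro d hd
    rw [mem_Icc] at hd
    have hd1 : (1 : ℝ) ≤ d := by exact_mod_cast hd.1
    have hd0 : (0 : ℝ) < d := by linarith
    have hdn0 : 0 < d ^ 2 := pow_pos hd.1 2
    rcases le_or_gt (d : ℝ) w with hdw | hdw
    · -- the small `d`
      have hdQ : (d : ℝ) ^ 4 ≤ Q := by
        rw [← hw4]
        gcongr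
      obtain ⟨M, hM⟩ : ∃ M, M = n / d ^ 2 := ⟨_, rfl⟩
      obtain ⟨M', hM'⟩ : ∃ M', M' = n' / d ^ 2 := ⟨_, rfl⟩
      have hd2w : (d : ℝ) ^ 2 ≤ w ^ 2 := by gcongr
      have hdX : 8 * (d : ℝ) ^ 2 ≤ X := by
        refine le_trans ?_ hX40
        calc 8 * (d : ℝ) ^ 2 ≤ w * w ^ 2 := by
              apply mul_le_mul (by linarith) hd2w (by positivity) (by positivity)
          _ = w ^ 3 := by ring
          _ ≤ w ^ 40 := pow_le_pow_right₀ (by linarith) (by norm_num)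
      have hMup : (M : ℝ) * (d : ℝ) ^ 2 ≤ n := by
        have : M * d ^ 2 ≤ n := by rw [hM]; exact Nat.div_mul_le_self _ _
        exact_mod_cast this
      have hMlow : (n : ℝ) < (M + 1) * (d : ℝ) ^ 2 := by
        have : n < (M + 1) * d ^ 2 := by
          rw [hM]
          exact Nat.lt_mul_of_div_lt (Nat.lt_succ_self _) hdn0
        exact_mod_cast this
      have hnle : (n : ℝ) ≤ 3 * X := le_trans (by exact_mod_cast hnn) hn'3
      have hX2 : (X : ℝ) ≤ 2 * (d : ℝ) ^ 2 * M := by nlinarith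
      have hM7 : (7 : ℝ) ≤ M + 1 := by
        by_contra hcon
        push Not at hcon
        have : (M + 1 : ℝ) * (d : ℝ) ^ 2 ≤ 7 * (d : ℝ) ^ 2 := by gcongr
        linarith
      have hM6 : 6 ≤ M := by
        have : (6 : ℝ) ≤ M := by linarith
        exact_mod_cast this
      have hM'4 : M' ≤ 4 * M := by
        have h1 : n' / d ^ 2 < 3 * (M + 1) := by
          rw [Nat.div_lt_iff_lt_mul hdn0]
          have h2 : n < (M + 1) * d ^ 2 := by
            rw [hM]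
            exact Nat.lt_mul_of_div_lt (Nat.lt_succ_self _) hdn0
          have h3 : n' ≤ 3 * n := by omega
          calc n' ≤ 3 * n := h3
            _ < 3 * ((M + 1) * d ^ 2) := by omega
            _ = 3 * (M + 1) * d ^ 2 := by ring
        omega
      have hMM' : M ≤ M' := by rw [hM, hM']; exact Nat.div_le_div_right hnn
      have hbound : ‖Idd n n' α d‖ ≤ 3 * (L ^ 6 * M / w) := by
        unfold Idd
        rw [← hM, ← hM']
        rcases le_or_gt M' (2 * M) with h2 | h2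
        · have := hblk d M M' hd.1 hdQ hX2 (by linarith) hMM' h2 hα
          have h0 : 0 ≤ L ^ 6 * M / w := by positivity
          linarith
        · rw [← Finset.sum_Ioc_consecutive _ (show M ≤ 2 * M by omega) h2.le]
          refine (norm_add_le _ _).trans ?_
          have b1 := hblk d M (2 * M) hd.1 hdQ hX2 (by linarith) (by omega) le_rfl hα
          have b2 := hblk d (2 * M) M' hd.1 hdQ (by push_cast; nlinarith) (by push_cast; nlinarith)
            h2.le (by omega) hα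
          have e1 : L ^ 6 * ((2 * M : ℕ) : ℝ) / w = 2 * (L ^ 6 * M / w) := by push_cast; ring
          rw [e1] at b2
          linarith
      refine hbound.trans ?_
      have h8 : (M : ℝ) ≤ 3 * X * ((d : ℝ))⁻¹ := by
        rw [← div_eq_mul_inv, le_div_iff₀ hd0]
        have h9 : (M : ℝ) * d ≤ M * (d : ℝ) ^ 2 := by
          apply mul_le_mul_of_nonneg_left _ (by positivity)
          nlinarith
        linarith
      calc 3 * (L ^ 6 * M / w) ≤ 3 * (L ^ 6 * (3 * X * ((d : ℝ))⁻¹) / w) := by gcongr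
        _ = 9 * L ^ 6 * X / w * ((d : ℝ))⁻¹ := by ring
    · -- the large `d`
      have h1 : ‖Idd n n' α d‖ ≤ 3 * X / (d : ℝ) ^ 2 := by
        unfold Idd
        refine (norm_sum_le _ _).trans ?_
        have h2 : ∀ m ∈ Ioc (n / d ^ 2) (n' / d ^ 2), ‖muC m * ee ((m : ℝ) * ((d : ℝ) ^ 2 * α))‖ ≤ 1 := by
          intro m _
          rw [norm_mul, norm_ee, mul_one]
          exact muC_norm m
        refine (sum_le_sum h2).trans ?_
        rw [sum_const, Nat.card_Ioc, nsmul_eq_mul, mul_one]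
        have h3 : ((n' / d ^ 2 - n / d ^ 2 : ℕ) : ℝ) ≤ ((n' / d ^ 2 : ℕ) : ℝ) := by
          exact_mod_cast Nat.sub_le _ _
        have h4 := Nat.cast_div_le (α := ℝ) (m := n') (n := d ^ 2)
        push_cast at h4
        refine (h3.trans h4).trans ?_
        gcongr
      refine h1.trans ?_
      rw [div_le_iff₀ (by positivity)]
      have h5 : 9 * L ^ 6 * X / w * ((d : ℝ))⁻¹ * (d : ℝ) ^ 2 = (9 * L ^ 6 * X) * (d / w) := by
        field_simp
      rw [h5]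
      have h6 : 1 ≤ d / w := by rw [one_le_div hw0]; exact hdw.le
      have h7 : 1 ≤ L ^ 6 := one_le_pow₀ (by linarith)
      calc 3 * (X : ℝ) ≤ (9 * L ^ 6 * X) * 1 := by nlinarith
        _ ≤ (9 * L ^ 6 * X) * (d / w) := by gcongr
  refine (sum_le_sum hterm).trans ?_
  rw [← mul_sum]
  have hharm : ∑ d ∈ Icc 1 n', ((d : ℝ))⁻¹ ≤ 2 * L := by
    have h1 := harmonic_le_one_add_log n'
    have h2 : ((harmonic n' : ℚ) : ℝ) = ∑ d ∈ Icc 1 n', ((d : ℝ))⁻¹ := by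
      rw [harmonic_eq_sum_Icc]
      push_cast
      rfl
    rw [h2] at h1
    have hn'0 : (0 : ℝ) < n' := by
      have : (n : ℝ) ≤ n' := by exact_mod_cast hnn
      linarith
    have h3 : Real.log n' ≤ Real.log (3 * X) := Real.log_le_log hn'0 hn'3
    rw [Real.log_mul (by norm_num) hX0.ne', ← hLd] at h3
    have h4 : Real.log 3 ≤ 2 := by
      have := Real.log_le_sub_one_of_pos (show (0 : ℝ) < 3 by norm_num)
      linarith
    linarith
  calc 9 * L ^ 6 * X / w * ∑ d ∈ Icc 1 n', ((d : ℝ))⁻¹ ≤ 9 * L ^ 6 * X / w * (2 * L) := by gcongr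
    _ = X * (18 * L ^ 7) / w := by ring
    _ ≤ X * L ^ 12 / w := by
        have h1 : 18 * L ^ 7 ≤ L ^ 12 := by
          have h2 : L ^ 12 = L ^ 5 * L ^ 7 := by ring
          have h3 : (18 : ℝ) ≤ L ^ 5 := by
            calc (18 : ℝ) ≤ 20000 := by norm_num
              _ ≤ L := hL
              _ = L ^ 1 := (pow_one L).symm
              _ ≤ L ^ 5 := pow_le_pow_right₀ (by linarith) (by norm_num)
          rw [h2]
          gcongr
        gcongr

end Pool.Agent.Q145.HC
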