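import Pool.Agent.Q145.HC.Stm
import Pool.Agent.Q145.SZ.SHARP

/-!
# Project HC, job SHL: sharp cut-offs with an additive twist, bounded coefficients
-/

set_option autoImplicit false

namespace Pool.Agent.Q145.HC

open Finset Filter Complex MeasureTheory
open scoped Real FourierTransform
open Pool.Agent.W66 Pool.Agent.W66L
open Pool.Agent.H807R2.Dav (ee)
open Pool.Agent.Q145.SZ

namespace SHLx

open Pool.Agent.Q145.SZ.SHx

lemma TG_continuous (a : ℕ → ℂ) (h : ℝ) (N : ℕ) : Continuous fun z => TG a h N z := by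
  unfold TG
  apply continuous_finsetSum
  intro m _
  exact continuous_const.mul ((triC_continuous h).comp (by fun_prop))

/-- the integral of the smoothed function -/
noncomputable def Gs (a : ℕ → ℂ) (h : ℝ) (N : ℕ) (s t β : ℝ) : ℂ :=
  ∫ z in s..t, ((Real.exp z : ℝ) : ℂ) * ee (Real.exp z * β) * TG a h N z

lemma Gs_eq (a : ℕ → ℂ) (h : ℝ) (N : ℕ) (s t β : ℝ) :
    Gs a h N s t β = ∑ m ∈ Ioc 0 N, a m * ker h s t β m := by
  unfold Gs
  have h1 : ∀ z : ℝ, ((Real.exp z : ℝ) : ℂ) * ee (Real.exp z * β) * TG a h N z =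
      ∑ m ∈ Ioc 0 N, a m *
        (((Real.exp z / m : ℝ) : ℂ) * ee (Real.exp z * β) * triC h (z - Real.log m)) := by
    intro z
    unfold TG
    rw [mul_sum]
    refine sum_congr rfl fun m hm => ?_
    push_cast
    ring
  simp_rw [h1]
  rw [intervalIntegral.integral_finsetSum]
  · refine sum_congr rfl fun m _ => ?_
    rw [intervalIntegral.integral_const_mul]
    rfl
  · intro m _
    exact (continuous_const.mul (ker_cont h β m)).intervalIntegrable _ _

/-- the sharp sum against the integral of the smoothed one -/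
lemma sharp_smooth' (a : ℕ → ℂ) (X n n' N : ℕ) (β h : ℝ)
    (ha1 : ∀ n, ‖a n‖ ≤ 1) (hX : 3 ≤ X) (hn : X ≤ n) (hnn : n ≤ n') (hn' : n' ≤ 4 * X) (hh : 0 < h)
    (hh4 : h ≤ 1 / 4) (hhX : 1 ≤ h * X) (hN : Real.exp (Real.log X + 4) ≤ N) :
    ‖∑ u ∈ Ioc n n', a u * ee (u * β) -
      Gs a h N (Real.log n) (Real.log n') β‖ ≤ 500 * (h * X * (1 + X * |β|)) := by
  classical
  have hX0 : (0 : ℝ) < X := by positivity
  have hX3 : (3 : ℝ) ≤ X := by exact_mod_cast hX
  have hn1 : 1 ≤ n := by omega
  have hn0 : (0 : ℝ) < n := by exact_mod_cast hn1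
  have hn0' : (0 : ℝ) < n' := by exact_mod_cast (by omega : 0 < n')
  set s := Real.log n with hs
  set t := Real.log n' with ht
  have hab : s ≤ t := Real.log_le_log hn0 (by exact_mod_cast hnn)
  have hn'4 : (n' : ℝ) ≤ 4 * X := by exact_mod_cast hn'
  have hnX : (X : ℝ) ≤ n := by exact_mod_cast hn
  have hn'N : n' ≤ N := by
    have h1 : (n' : ℝ) ≤ N := by
      refine hn'4.trans (le_trans ?_ hN)
      rw [Real.exp_add, Real.exp_log hX0]
      have : (5 : ℝ) ≤ Real.exp 4 := by
        have := Real.add_one_le_exp (4 : ℝ)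
        linarith
      nlinarith
    exact_mod_cast h1
  have hLam : ∑ u ∈ Ioc n n', a u * ee (u * β) =
      ∑ m ∈ Ioc 0 N, a m * (if m ∈ Ioc n n' then ee (m * β) else 0) := by
    simp_rw [mul_ite, mul_zero]
    rw [← sum_filter]
    congr 1
    ext m
    simp only [mem_filter, mem_Ioc]
    omega
  rw [hLam, Gs_eq, ← sum_sub_distrib]
  simp_rw [← mul_sub]
  have hβ : 0 ≤ |β| := abs_nonneg β
  set T := h * X * (1 + X * |β|) with hT
  have hhX0 : 0 < h * X := by positivity
  have hT1 : h * X ≤ T := by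
    rw [hT]
    have : 1 ≤ 1 + X * |β| := by
      have : 0 ≤ X * |β| := by positivity
      linarith
    nlinarith
  have hT0 : 0 ≤ T := hhX0.le.trans hT1
  refine (norm_sum_le _ _).trans ?_
  set NB : ℕ → Prop := fun m => |Real.log m - s| < h ∨ |Real.log m - t| < h with hNB
  have hterm : ∀ m ∈ Ioc 0 N, ‖a m * ((if m ∈ Ioc n n' then ee (m * β) else 0) - ker h s t β m)‖ ≤
      (if NB m then 3 else 0) +
      (if m ∈ Ioc n n' then (2 * h * (1 + 2 * π * (4 * (X * |β|)))) else 0) := by
    intro m hm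
    rw [mem_Ioc] at hm
    have hm1 : 1 ≤ m := hm.1
    have hm0 : (0 : ℝ) < m := by exact_mod_cast hm1
    rw [norm_mul]
    have ham : ‖a m‖ * ‖(if m ∈ Ioc n n' then ee (m * β) else 0) - ker h s t β m‖ ≤
        ‖(if m ∈ Ioc n n' then ee (m * β) else 0) - ker h s t β m‖ :=
      mul_le_of_le_one_left (norm_nonneg _) (ha1 m)
    refine ham.trans ?_
    have hsec : 0 ≤ (if m ∈ Ioc n n' then (2 * h * (1 + 2 * π * (4 * (X * |β|)))) else 0) := by
      split_ifs <;> positivity
    by_cases hnb : NB m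
    · rw [if_pos hnb]
      have h2 : ‖(if m ∈ Ioc n n' then ee (m * β) else 0) - ker h s t β m‖ ≤ 3 := by
        refine (norm_sub_le _ _).trans ?_
        have h3 : ‖(if m ∈ Ioc n n' then ee (m * β) else 0)‖ ≤ 1 := by
          split_ifs
          · rw [Pool.Agent.H807R2.Dav.norm_ee]
          · simp
        have := ker_le hh hh4 s t β hab hm1
        linarith
      linarith
    · rw [if_neg hnb, zero_add]
      have hnb1 : h ≤ |Real.log m - s| := by
        by_contra hcon
        exact hnb (Or.inl (not_le.mp hcon))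
      have hnb2 : h ≤ |Real.log m - t| := by
        by_contra hcon
        exact hnb (Or.inr (not_le.mp hcon))
      by_cases hin : m ∈ Ioc n n'
      · rw [if_pos hin, if_pos hin]
        rw [mem_Ioc] at hin
        have h1 : s ≤ Real.log m := Real.log_le_log hn0 (by exact_mod_cast hin.1.le)
        have h2 : Real.log m ≤ t := Real.log_le_log hm0 (by exact_mod_cast hin.2)
        rw [abs_of_nonneg (by linarith)] at hnb1
        rw [abs_of_nonpos (by linarith)] at hnb2
        have h3 := ker_in hh hh4 s t β hm1 (by linarith) (by linarith)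
        rw [norm_sub_rev]
        have hm3 : (m : ℝ) ≤ 4 * X := le_trans (by exact_mod_cast hin.2) hn'4
        refine h3.trans ?_
        have : (m : ℝ) * |β| ≤ 4 * (X * |β|) := by nlinarith
        gcongr
      · rw [if_neg hin, if_neg hin]
        have h1 : ker h s t β m = 0 := by
          apply ker_zero hh s t β hab
          rw [mem_Ioc] at hin
          rcases Nat.lt_or_ge n m with h2 | h2
          · right
            have h3 : n' ≤ m := by omega
            have h4 : t ≤ Real.log m := Real.log_le_log hn0' (by exact_mod_cast h3)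
            rw [abs_of_nonneg (by linarith)] at hnb2
            linarith
          · left
            have h4 : Real.log m ≤ s := Real.log_le_log hm0 (by exact_mod_cast h2)
            rw [abs_of_nonpos (by linarith)] at hnb1
            linarith
        rw [h1]
        simp
  refine (sum_le_sum hterm).trans ?_
  rw [sum_add_distrib]
  have hA : ∑ m ∈ Ioc 0 N, (if NB m then (3 : ℝ) else 0) ≤ 102 * T := by
    rw [← sum_filter, sum_const, nsmul_eq_mul]
    have hc : (((Ioc 0 N).filter NB).card : ℝ) ≤ 34 * (h * X) := by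
      have h1 : (Ioc 0 N).filter NB ⊆ (Ioc 0 N).filter (fun m : ℕ => |Real.log m - Real.log n| < h) ∪
          (Ioc 0 N).filter (fun m : ℕ => |Real.log m - Real.log n'| < h) := by
        intro m hm
        rw [mem_filter] at hm
        rw [mem_union, mem_filter, mem_filter]
        rcases hm.2 with h2 | h2
        · exact Or.inl ⟨hm.1, h2⟩
        · exact Or.inr ⟨hm.1, h2⟩
      have h2 := (card_le_card h1).trans (card_union_le _ _)
      have h3 := count_near hh hh4 n N hn1
      have h4 := count_near hh hh4 n' N (by omega)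
      have h5 : (((Ioc 0 N).filter NB).card : ℝ) ≤ (4 * h * n + 1) + (4 * h * n' + 1) := by
        refine le_trans ?_ (add_le_add h3 h4)
        exact_mod_cast h2
      have h6 : h * (n : ℝ) ≤ h * (4 * X) := by
        apply mul_le_mul_of_nonneg_left _ hh.le
        have : (n : ℝ) ≤ n' := by exact_mod_cast hnn
        linarith
      have h7 : h * (n' : ℝ) ≤ h * (4 * X) := mul_le_mul_of_nonneg_left hn'4 hh.le
      nlinarith
    calc (((Ioc 0 N).filter NB).card : ℝ) * 3 ≤ (34 * (h * X)) * 3 :=
          mul_le_mul_of_nonneg_right hc (by positivity)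
      _ = 102 * (h * X) := by ring
      _ ≤ 102 * T := by linarith
  have hB : ∑ m ∈ Ioc 0 N, (if m ∈ Ioc n n' then
      (2 * h * (1 + 2 * π * (4 * (X * |β|)))) else 0) ≤ 156 * T := by
    have h1 : ∑ m ∈ Ioc 0 N, (if m ∈ Ioc n n' then
      (2 * h * (1 + 2 * π * (4 * (X * |β|)))) else 0) = ((n' - n : ℕ) : ℝ) *
        (2 * h * (1 + 2 * π * (4 * (X * |β|)))) := by
      rw [← sum_filter, sum_const, nsmul_eq_mul]
      congr 2
      rw [← Nat.card_Ioc]
      congr 1
      ext m
      simp only [mem_filter, mem_Ioc]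
      omega
    rw [h1, Nat.cast_sub hnn]
    have h2 : (n' : ℝ) - n ≤ 3 * X := by linarith
    have hpi : π < 3.1416 := Real.pi_lt_d4
    have h3 : 1 + 2 * π * (4 * (X * |β|)) ≤ 26 * (1 + X * |β|) := by
      have h4 : 0 ≤ X * |β| := by positivity
      nlinarith
    calc ((n' : ℝ) - n) * (2 * h * (1 + 2 * π * (4 * (X * |β|))))
        ≤ (3 * X) * (2 * h * (26 * (1 + X * |β|))) := by
          gcongr
      _ = 156 * T := by rw [hT]; ring
  linarith

/-- the function on the line -/
noncomputable def gs (a : ℕ → ℂ) (h : ℝ) (N n n' : ℕ) : ℝ → ℂ :=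
  (Set.Ioc (n : ℝ) n').indicator fun y => TG a h N (Real.log (max y 1))

lemma es_cont (a : ℕ → ℂ) (h : ℝ) (N : ℕ) :
    Continuous fun y : ℝ => TG a h N (Real.log (max y 1)) := by
  have h1 : Continuous fun y : ℝ => Real.log (max y 1) :=
    (continuous_id.max continuous_const).log fun y => by
      have : (1 : ℝ) ≤ max y 1 := le_max_right _ _
      simp only [id]
      linarith
  exact (TG_continuous a h N).comp h1

lemma gs_integrable (a : ℕ → ℂ) (h : ℝ) (N n n' : ℕ) : Integrable (gs a h N n n') := by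
  unfold gs
  rw [integrable_indicator_iff measurableSet_Ioc]
  exact ((es_cont a h N).integrableOn_Icc).mono_set Set.Ioc_subset_Icc_self

lemma gs_memLp (a : ℕ → ℂ) (h : ℝ) (N n n' : ℕ) : MemLp (gs a h N n n') 2 := by
  rw [memLp_two_iff_integrable_sq_norm (gs_integrable a h N n n').1]
  have h1 : (fun y => ‖gs a h N n n' y‖ ^ 2) =
      (Set.Ioc (n : ℝ) n').indicator fun y => ‖TG a h N (Real.log (max y 1))‖ ^ 2 := by
    ext y
    unfold gs
    by_cases hy : y ∈ Set.Ioc (n : ℝ) n'
    · rw [Set.indicator_of_mem hy, Set.indicator_of_mem hy]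
    · rw [Set.indicator_of_notMem hy, Set.indicator_of_notMem hy]; simp
  rw [h1, integrable_indicator_iff measurableSet_Ioc]
  exact (((es_cont a h N).norm.pow 2).integrableOn_Icc).mono_set Set.Ioc_subset_Icc_self

lemma four_gs (a : ℕ → ℂ) (h : ℝ) (N n n' : ℕ) (hn : 1 ≤ n) (hnn : n ≤ n') (ξ : ℝ) :
    𝓕 (gs a h N n n') ξ = Gs a h N (Real.log n) (Real.log n') (-ξ) := by
  have hnn' : (n : ℝ) ≤ n' := by exact_mod_cast hnn
  have hn0 : (0 : ℝ) < n := by exact_mod_cast hn
  rw [four_eq]
  have h1 : ∀ y : ℝ, cexp (-(((2 * π * ξ * y : ℝ) : ℂ) * I)) * gs a h N n n' y =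
      (Set.Ioc (n : ℝ) n').indicator (fun y => ee (y * (-ξ)) *
        TG a h N (Real.log (max y 1))) y := by
    intro y
    unfold gs
    by_cases hy : y ∈ Set.Ioc (n : ℝ) n'
    · rw [Set.indicator_of_mem hy, Set.indicator_of_mem hy]
      congr 1
      unfold Pool.Agent.H807R2.Dav.ee
      congr 1
      push_cast
      ring
    · rw [Set.indicator_of_notMem hy, Set.indicator_of_notMem hy, mul_zero]
  simp_rw [h1]
  have hcc : Continuous fun y : ℝ => ee (y * (-ξ)) * TG a h N (Real.log (max y 1)) :=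
    (ee_cont.comp (by fun_prop : Continuous fun y : ℝ => y * (-ξ))).mul (es_cont a h N)
  rw [integral_indicator measurableSet_Ioc, ← intervalIntegral.integral_of_le hnn',
    change_var n n' hn hnn _ hcc]
  unfold Gs
  apply intervalIntegral.integral_congr
  intro z hz
  have hz1 : 1 ≤ Real.exp z := by
    rw [Set.uIcc_of_le (Real.log_le_log hn0 hnn')] at hz
    have h2 : 0 ≤ Real.log n := Real.log_nonneg (by exact_mod_cast hn)
    exact Real.one_le_exp (h2.trans hz.1)
  simp only
  rw [max_eq_left hz1, Real.log_exp, Complex.real_smul]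
  ring

lemma Gs_cont (a : ℕ → ℂ) (h : ℝ) (N : ℕ) (s t : ℝ) : Continuous fun β => Gs a h N s t β := by
  unfold Gs
  apply intervalIntegral.continuous_parametric_intervalIntegral_of_continuous'
  have h1 : Continuous fun p : ℝ × ℝ => ((Real.exp p.2 : ℝ) : ℂ) :=
    Complex.continuous_ofReal.comp (by fun_prop)
  have h2 : Continuous fun p : ℝ × ℝ => ee (Real.exp p.2 * p.1) := ee_cont.comp (by fun_prop)
  have h3 : Continuous fun p : ℝ × ℝ => TG a h N p.2 := (TG_continuous a h N).comp continuous_snd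
  exact (h1.mul h2).mul h3

lemma gs_sq (a : ℕ → ℂ) (h : ℝ) (N n n' : ℕ) (hn : 1 ≤ n) (hnn : n ≤ n') :
    ∫ y, ‖gs a h N n n' y‖ ^ 2 =
      ∫ z in (Real.log n)..(Real.log n'), Real.exp z * ‖TG a h N z‖ ^ 2 := by
  have hnn' : (n : ℝ) ≤ n' := by exact_mod_cast hnn
  have hn0 : (0 : ℝ) < n := by exact_mod_cast hn
  have h1 : (fun y => ‖gs a h N n n' y‖ ^ 2) =
      (Set.Ioc (n : ℝ) n').indicator fun y => ‖TG a h N (Real.log (max y 1))‖ ^ 2 := by
    ext y
    unfold gs
    by_cases hy : y ∈ Set.Ioc (n : ℝ) n'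
    · rw [Set.indicator_of_mem hy, Set.indicator_of_mem hy]
    · rw [Set.indicator_of_notMem hy, Set.indicator_of_notMem hy]; simp
  have hcc : Continuous fun y : ℝ => ‖TG a h N (Real.log (max y 1))‖ ^ 2 :=
    (es_cont a h N).norm.pow 2
  rw [h1, integral_indicator measurableSet_Ioc, ← intervalIntegral.integral_of_le hnn',
    change_var n n' hn hnn _ hcc]
  apply intervalIntegral.integral_congr
  intro z hz
  have hz1 : 1 ≤ Real.exp z := by
    rw [Set.uIcc_of_le (Real.log_le_log hn0 hnn')] at hz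
    have h2 : 0 ≤ Real.log n := Real.log_nonneg (by exact_mod_cast hn)
    exact Real.one_le_exp (h2.trans hz.1)
  simp only
  rw [max_eq_left hz1, Real.log_exp, smul_eq_mul]

/-- Plancherel -/
lemma Gs_l2 (a : ℕ → ℂ) (h : ℝ) (N n n' : ℕ) (hn : 1 ≤ n) (hnn : n ≤ n') (B : ℝ) (hB : 0 ≤ B) :
    ∫ β in (-B)..B, ‖Gs a h N (Real.log n) (Real.log n') β‖ ^ 2 ≤ ∫ y, ‖gs a h N n n' y‖ ^ 2 := by
  have hcont : Continuous fun β => ‖Gs a h N (Real.log n) (Real.log n') β‖ ^ 2 :=
    (Gs_cont a h N _ _).norm.pow 2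
  have hm := gs_memLp a h N n n'
  have hi := gs_integrable a h N n n'
  have p1 := Pool.Agent.Helper76.NormalHP.plancherel_lintegral _ hi hm
  rw [intervalIntegral.integral_of_le (by linarith)]
  refine (ENNReal.ofReal_le_ofReal_iff (integral_nonneg fun y => by positivity)).1 ?_
  rw [← lint_sq hm, ← p1, ofReal_integral_eq_lintegral_ofReal
    ((hcont.integrableOn_Icc).mono_set Set.Ioc_subset_Icc_self)
    (Eventually.of_forall fun β => by simp only [Pi.zero_apply]; positivity)]
  have h1 : ∫⁻ ξ, ‖𝓕 (gs a h N n n') ξ‖ₑ ^ 2 =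
      ∫⁻ β, ENNReal.ofReal (‖Gs a h N (Real.log n) (Real.log n') β‖ ^ 2) := by
    rw [← lintegral_neg_eq_self (μ := volume) (fun β : ℝ =>
      ENNReal.ofReal (‖Gs a h N (Real.log n) (Real.log n') β‖ ^ 2))]
    congr 1
    ext ξ
    rw [four_gs a h N n n' hn hnn ξ, ← ofReal_norm, ← ENNReal.ofReal_pow (norm_nonneg _)]
  rw [h1]
  exact setLIntegral_le_lintegral _ _

end SHLx

open SHLx Pool.Agent.Q145.SZ.SHx in
theorem t_SHL : S_SHL := by
  refine ⟨1000000, by norm_num, ?_⟩
  intro a X n n' N B h ha1 hX hn hnn hn' hh hh4 hhX hB hB1 hN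
  have hX0 : (0 : ℝ) < X := by positivity
  have hX3 : (3 : ℝ) ≤ X := by exact_mod_cast hX
  have hn1 : 1 ≤ n := by omega
  have hn0 : (0 : ℝ) < n := by exact_mod_cast hn1
  have hn0' : (0 : ℝ) < n' := by exact_mod_cast (by omega : 0 < n')
  have hn'4 : (n' : ℝ) ≤ 4 * X := by exact_mod_cast hn'
  have hab : Real.log n ≤ Real.log n' := Real.log_le_log hn0 (by exact_mod_cast hnn)
  have haX : Real.log X ≤ Real.log n := Real.log_le_log hX0 (by exact_mod_cast hn)
  have hbX : Real.log n' ≤ Real.log X + 2 := by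
    have h1 : Real.log n' ≤ Real.log (4 * X) := Real.log_le_log hn0' hn'4
    rw [Real.log_mul (by norm_num) hX0.ne'] at h1
    have h2 : Real.log 4 ≤ 2 := by
      have h3 : Real.log 4 = 2 * Real.log 2 := by
        rw [show (4 : ℝ) = 2 ^ 2 by norm_num, Real.log_pow]
        norm_num
      have := Real.log_two_lt_d9
      linarith
    linarith
  set J := ∫ z in (Real.log X)..(Real.log X + 2), ‖TG a h N z‖ ^ 2 with hJ
  have hEc : Continuous fun z => ‖TG a h N z‖ := (TG_continuous a h N).norm
  have hJ0 : 0 ≤ J := intervalIntegral.integral_nonneg (by linarith) fun z _ => by positivity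
  have hJab : ∫ z in (Real.log n)..(Real.log n'), ‖TG a h N z‖ ^ 2 ≤ J := by
    rw [hJ]
    apply intervalIntegral.integral_mono_interval haX hab hbX
    · exact Eventually.of_forall fun z => by simp only [Pi.zero_apply]; positivity
    · exact (hEc.pow 2).intervalIntegrable _ _
  have hexp3 : ∀ z ∈ Set.Icc (Real.log n) (Real.log n'), Real.exp z ≤ 4 * X := by
    intro z hz
    calc Real.exp z ≤ Real.exp (Real.log n') := Real.exp_le_exp.mpr hz.2
      _ = n' := Real.exp_log hn0'
      _ ≤ 4 * X := hn'4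
  have hg2 : ∫ y, ‖gs a h N n n' y‖ ^ 2 ≤ 4 * X * J := by
    rw [gs_sq a h N n n' hn1 hnn]
    calc ∫ z in (Real.log n)..(Real.log n'), Real.exp z * ‖TG a h N z‖ ^ 2
        ≤ ∫ z in (Real.log n)..(Real.log n'), 4 * X * ‖TG a h N z‖ ^ 2 := by
          apply intervalIntegral.integral_mono_on hab
          · exact (Real.continuous_exp.mul (hEc.pow 2)).intervalIntegrable _ _
          · exact (continuous_const.mul (hEc.pow 2)).intervalIntegrable _ _
          · intro z hz
            exact mul_le_mul_of_nonneg_right (hexp3 z hz) (by positivity)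
      _ = 4 * X * ∫ z in (Real.log n)..(Real.log n'), ‖TG a h N z‖ ^ 2 := by
          rw [intervalIntegral.integral_const_mul]
      _ ≤ 4 * X * J := mul_le_mul_of_nonneg_left hJab (by positivity)
  have hSG := fun β => sharp_smooth' a X n n' N β h ha1 hX hn hnn hn' hh hh4 hhX hN
  set R := h * X * (1 + X * B) with hR
  have hR0 : 0 ≤ R := by positivity
  have hSc : Continuous fun β : ℝ => ∑ u ∈ Ioc n n', a u * ee (u * β) := by
    apply continuous_finsetSum
    intro u _
    exact continuous_const.mul (ee_cont.comp (by fun_prop))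
  have hGc : Continuous fun β => Gs a h N (Real.log n) (Real.log n') β := Gs_cont a h N _ _
  calc ∫ β in (-B)..B, ‖∑ u ∈ Ioc n n', a u * ee (u * β)‖ ^ 2
      ≤ ∫ β in (-B)..B, (2 * ‖Gs a h N (Real.log n) (Real.log n') β‖ ^ 2 + 2 * (500 * R) ^ 2) := by
        apply intervalIntegral.integral_mono_on (by linarith)
        · exact (hSc.norm.pow 2).intervalIntegrable _ _
        · exact ((continuous_const.mul (hGc.norm.pow 2)).add continuous_const).intervalIntegrable _ _
        · intro β hβ
          have h1 := hSG β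
          have h2 : |β| ≤ B := abs_le.mpr ⟨hβ.1, hβ.2⟩
          have h3 : 500 * (h * X * (1 + X * |β|)) ≤ 500 * R := by
            rw [hR]
            gcongr
          have h4 := norm_sub_norm_le (∑ u ∈ Ioc n n', a u * ee (u * β))
            (Gs a h N (Real.log n) (Real.log n') β)
          set s := ‖∑ u ∈ Ioc n n', a u * ee (u * β)‖
          set g := ‖Gs a h N (Real.log n) (Real.log n') β‖
          have hs : s ≤ g + 500 * R := by linarith
          have hs0 : 0 ≤ s := norm_nonneg _
          calc s ^ 2 ≤ (g + 500 * R) ^ 2 := by gcongr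
            _ ≤ 2 * g ^ 2 + 2 * (500 * R) ^ 2 := by nlinarith [sq_nonneg (g - 500 * R)]
    _ = 2 * (∫ β in (-B)..B, ‖Gs a h N (Real.log n) (Real.log n') β‖ ^ 2) +
          (2 * B) * (2 * (500 * R) ^ 2) := by
        have hc1 : Continuous fun β => 2 * ‖Gs a h N (Real.log n) (Real.log n') β‖ ^ 2 :=
          continuous_const.mul (hGc.norm.pow 2)
        rw [intervalIntegral.integral_add (hc1.intervalIntegrable _ _)
          (continuous_const.intervalIntegrable _ _),
          intervalIntegral.integral_const_mul, intervalIntegral.integral_const, smul_eq_mul]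
        ring
    _ ≤ 2 * (4 * X * J) + (2 * B) * (2 * (500 * R) ^ 2) := by
        have := (Gs_l2 a h N n n' hn1 hnn B hB).trans hg2
        linarith
    _ ≤ 1000000 * X * J + 1000000 * B * R ^ 2 := by
        have h5 : 0 ≤ X * J := by positivity
        have h6 : 0 ≤ B * R ^ 2 := by positivity
        nlinarith

end Pool.Agent.Q145.HC
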